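import Pool.Agent.H312Gat.A8
import Pool.Agent.H312Gat.B2
set_option linter.unusedVariables false
set_option linter.unusedSectionVars false
open Set Filter Topology
open scoped ENNReal ContDiff

namespace Pool.Agent.Results.MP_b5ab38_an.NormsAndBumps

/-- the real Banach space `ℓ_3` -/
abbrev ell3 : Type := lp (fun _ : ℕ => ℝ) 3

instance fact_three : Fact ((1:ℝ≥0∞) ≤ 3) := ⟨by norm_num⟩

section
variable {X : Type*} [NormedAddCommGroup X] [NormedSpace ℝ X]

/-- `HasGD f k x M`: the `k`-th Gateaux derivative of `f` at `x` exists and is the continuous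
`k`-linear form `M` (for `k = 0` this means `M = f x`).
* `k = 1`: `M h = lim_{t → 0} (f (x + t h) - f x) / t` for all `h`;
* `k + 2`: the `(k+1)`-st derivative `D y` exists at all `y` in a neighbourhood of `x`, for all
  `h_1, …, h_{k+2}` one has
  `M (h_1, …, h_{k+2}) = lim_{t ↓ 0} (D (x + t h_{k+2}) - D x) (h_1, …, h_{k+1}) / t`,
  and `M` is symmetric. -/
def HasGD (f : X → ℝ) : (k : ℕ) → X → ContinuousMultilinearMap ℝ (fun _ : Fin k => X) ℝ → Prop
  | 0, x, M => ∀ h, M h = f x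
  | 1, x, M => ∀ h : X, Tendsto (fun t : ℝ => (f (x + t • h) - f x) / t) (𝓝[≠] 0) (𝓝 (M (fun _ => h)))
  | k + 2, x, M =>
      (∃ D : X → ContinuousMultilinearMap ℝ (fun _ : Fin (k + 1) => X) ℝ,
        (∀ᶠ y in 𝓝 x, HasGD f (k + 1) y (D y)) ∧
        ∀ h : Fin (k + 2) → X, Tendsto
          (fun t : ℝ => (D (x + t • h (Fin.last (k + 1))) (Fin.init h) - D x (Fin.init h)) / t)
          (𝓝[>] 0) (𝓝 (M h))) ∧
      ∀ (σ : Equiv.Perm (Fin (k + 2))) (h : Fin (k + 2) → X), M (h ∘ σ) = M h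

/-- `f` is `k` times Gateaux differentiable at `x` -/
def GateauxDiffAt (k : ℕ) (f : X → ℝ) (x : X) : Prop :=
  ∃ M : ContinuousMultilinearMap ℝ (fun _ : Fin k => X) ℝ, HasGD f k x M

/-- `N` is an equivalent norm on `X`. -/
structure IsEquivNorm (N : X → ℝ) : Prop where
  add_le : ∀ x y, N (x + y) ≤ N x + N y
  smul : ∀ (t : ℝ) (x : X), N (t • x) = |t| * N x
  equiv : ∃ c C : ℝ, 0 < c ∧ 0 < C ∧ ∀ x, c * ‖x‖ ≤ N x ∧ N x ≤ C * ‖x‖

/-- `b` is a bump: not identically zero, with bounded support `closure {x | b x ≠ 0}`. -/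
def IsBump (b : X → ℝ) : Prop := (∃ x, b x ≠ 0) ∧ Bornology.IsBounded (tsupport b)

theorem hasGD_unique (f : X → ℝ) : ∀ (k : ℕ) (x : X) (M M' : ContinuousMultilinearMap ℝ (fun _ : Fin k => X) ℝ),
    HasGD f k x M → HasGD f k x M' → M = M'
  | 0, x, M, M', h1, h2 => by
      ext h
      have e1 : M h = f x := h1 h
      have e2 : M' h = f x := h2 h
      rw [e1, e2]
  | 1, x, M, M', h1, h2 => by
      ext h
      have h3 : h = fun _ => h 0 := by
        ext1 i; rw [Subsingleton.elim i 0]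
      rw [h3]
      exact tendsto_nhds_unique (h1 (h 0)) (h2 (h 0))
  | k + 2, x, M, M', h1, h2 => by
      obtain ⟨⟨D, hD1, hD2⟩, _⟩ := h1
      obtain ⟨⟨D', hD1', hD2'⟩, _⟩ := h2
      have hev : ∀ᶠ y in 𝓝 x, D y = D' y := by
        filter_upwards [hD1, hD1'] with y e1 e2
        exact hasGD_unique f (k + 1) y _ _ e1 e2
      ext h
      refine tendsto_nhds_unique (hD2 h) ?_
      refine (hD2' h).congr' ?_
      have hc : Tendsto (fun t : ℝ => x + t • h (Fin.last (k + 1))) (𝓝[>] 0) (𝓝 x) := by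
        have hc : Continuous (fun t : ℝ => x + t • h (Fin.last (k + 1))) := by fun_prop
        have := (hc.tendsto 0).mono_left (nhdsWithin_le_nhds (s := Ioi 0))
        simpa using this
      have hx := hev.self_of_nhds
      filter_upwards [hc.eventually hev] with t ht
      rw [ht, hx]

theorem hasGD_lower {f : X → ℝ} {k : ℕ} {x : X} (h : ∃ M, HasGD f (k + 1) x M) : ∃ M, HasGD f k x M := by
  rcases k with _ | k
  · exact ⟨ContinuousMultilinearMap.constOfIsEmpty ℝ _ (f x), fun _ => rfl⟩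
  · obtain ⟨M, ⟨D, hD1, hD2⟩, _⟩ := h
    exact ⟨D x, hD1.self_of_nhds⟩

theorem hasGD_le {f : X → ℝ} {x : X} {n : ℕ} (h : ∃ M, HasGD f n x M) : ∀ k ≤ n, ∃ M, HasGD f k x M := by
  intro k hk
  induction n, hk using Nat.le_induction with
  | base => exact h
  | succ n hn ih => exact ih (hasGD_lower h)

theorem deriv_of {f : X → ℝ} {n : ℕ} {U : Set X} (hU : IsOpen U)
    (G : X → (j : ℕ) → ContinuousMultilinearMap ℝ (fun _ : Fin j => X) ℝ)
    (hG : ∀ z ∈ U, ∀ j ≤ n, HasGD f j z (G z j)) (z : X) (hz : z ∈ U) (v : X) (j : ℕ) (hj : j < n) :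
    HasDerivAt (fun t : ℝ => G (z + t • v) j (fun _ => v)) (G z (j + 1) (fun _ => v)) 0 := by
  have hline : ∀ u : X, ∀ᶠ t : ℝ in 𝓝 0, z + t • u ∈ U := by
    intro u
    have hc : Continuous (fun t : ℝ => z + t • u) := by fun_prop
    have : z + (0:ℝ) • u ∈ U := by simpa using hz
    exact hc.continuousAt.eventually (hU.mem_nhds this)
  rcases j with _ | j
  · rw [hasDerivAt_iff_tendsto_slope_zero]
    have h1 : Tendsto (fun t : ℝ => (f (z + t • v) - f z) / t) (𝓝[≠] 0) (𝓝 (G z 1 (fun _ => v))) :=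
      hG z hz 1 hj v
    refine h1.congr' ?_
    filter_upwards [(hline v).filter_mono nhdsWithin_le_nhds] with t ht
    have e1 : G (z + t • v) 0 (fun _ => v) = f (z + t • v) := hG _ ht 0 (Nat.zero_le _) _
    have e2 : G z 0 (fun _ => v) = f z := hG _ hz 0 (Nat.zero_le _) _
    rw [zero_add, e1, zero_smul, add_zero, e2, smul_eq_mul, div_eq_inv_mul]
  · obtain ⟨⟨D, hD1, hD2⟩, _⟩ := hG z hz (j + 2) hj
    have hDG : ∀ᶠ y in 𝓝 z, D y = G y (j + 1) := by
      filter_upwards [hD1, hU.mem_nhds hz] with y e1 e2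
      exact hasGD_unique f (j + 1) y _ _ e1 (hG y e2 (j + 1) hj.le)
    have hz0 := hDG.self_of_nhds
    -- one-sided limit in direction `u`
    have hone : ∀ u : X, ∀ h : Fin (j + 2) → X, Fin.init h = (fun _ => v) → h (Fin.last (j + 1)) = u →
        Tendsto (fun t : ℝ => (G (z + t • u) (j + 1) (fun _ => v) - G z (j + 1) (fun _ => v)) / t) (𝓝[>] 0)
          (𝓝 (G z (j + 2) h)) := by
      intro u h h1 h2
      refine (hD2 h).congr' ?_
      have hc : Tendsto (fun t : ℝ => z + t • u) (𝓝[>] 0) (𝓝 z) := by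
        have hc : Continuous (fun t : ℝ => z + t • u) := by fun_prop
        have := (hc.tendsto 0).mono_left (nhdsWithin_le_nhds (s := Ioi 0))
        simpa using this
      filter_upwards [hc.eventually hDG] with t ht
      rw [h1, h2, ht, hz0]
    have hright := hone v (fun _ => v) rfl rfl
    have hleft := hone (-v) (Fin.snoc (fun _ => v) (-v)) (by
      ext1 i
      exact congrFun (Fin.init_snoc (α := fun _ : Fin (j + 2) => X) (-v) (fun _ : Fin (j + 1) => v)) i)
      (Fin.snoc_last (α := fun _ : Fin (j + 2) => X) (-v) (fun _ : Fin (j + 1) => v))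
    have hval : G z (j + 2) (Fin.snoc (fun _ => v) (-v)) = - G z (j + 2) (fun _ => v) := by
      have e1 : (Fin.snoc (fun _ : Fin (j + 1) => v) (-v) : Fin (j + 2) → X) =
          Function.update (fun _ => v) (Fin.last (j + 1)) ((-1 : ℝ) • v) := by
        ext1 i
        refine Fin.lastCases ?_ (fun i => ?_) i
        · rw [Fin.snoc_last (α := fun _ : Fin (j + 2) => X), Function.update_self, neg_one_smul]
        · rw [Fin.snoc_castSucc (α := fun _ : Fin (j + 2) => X), Function.update_of_ne (Fin.castSucc_lt_last i).ne]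
      rw [e1, ContinuousMultilinearMap.map_update_smul, Function.update_eq_self_iff.2 rfl]
      simp
    rw [hval] at hleft
    rw [hasDerivAt_iff_tendsto_slope_zero, ← nhdsLT_sup_nhdsGT, tendsto_sup]
    constructor
    · have hneg : Tendsto (fun t : ℝ => -t) (𝓝[<] 0) (𝓝[>] 0) := by
        have := tendsto_neg_nhdsLT (a := (0:ℝ))
        rwa [neg_zero] at this
      have h3 := (hleft.comp hneg).neg
      rw [neg_neg] at h3
      refine h3.congr' (Eventually.of_forall fun t => ?_)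
      simp only [Function.comp]
      rw [smul_neg, neg_smul, neg_neg, zero_add, zero_smul, add_zero, smul_eq_mul, div_neg, neg_neg, div_eq_inv_mul]
    · refine hright.congr' (Eventually.of_forall fun t => ?_)
      simp only
      rw [zero_add, zero_smul, add_zero, smul_eq_mul, div_eq_inv_mul]

end

open H312Gat in
theorem lineDerivs_of {p : ℝ≥0∞} [Fact (1 ≤ p)] [Fact (p ≠ ⊤)] {f : LP p → ℝ} {n : ℕ} {U : Set (LP p)}
    (hU : IsOpen U) (h : ∀ x ∈ U, GateauxDiffAt n f x) :
    ∃ M : LP p → (j : ℕ) → ML p j, LineDerivs f n U M := by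
  classical
  have hex : ∀ z : LP p, ∀ j : ℕ, ∃ M : ContinuousMultilinearMap ℝ (fun _ : Fin j => LP p) ℝ,
      z ∈ U → j ≤ n → HasGD f j z M := by
    intro z j
    by_cases hz : z ∈ U ∧ j ≤ n
    · obtain ⟨M, hM⟩ := hasGD_le (h z hz.1) j hz.2
      exact ⟨M, fun _ _ => hM⟩
    · exact ⟨0, fun h1 h2 => absurd ⟨h1, h2⟩ hz⟩
  choose M hM using hex
  refine ⟨M, fun z hz u => hM z 0 hz (Nat.zero_le _) _, fun z hz v j hj => ?_⟩
  exact deriv_of hU M (fun z hz j hj => hM z j hz hj) z hz v j hj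

theorem hasGD_wild {X : Type*} [NormedAddCommGroup X] [NormedSpace ℝ X] {f : X → ℝ} {G : X → X → ℝ}
    (hG : ∀ x, ContDiff ℝ ∞ (G x))
    (hf : ∀ x, ∀ (n : ℕ) (v : Fin n → X), ∀ᶠ s : Fin n → ℝ in 𝓝 0,
      f (x + ∑ i, s i • v i) = G x (x + ∑ i, s i • v i)) :
    ∀ (k : ℕ) (x : X), HasGD f k x (iteratedFDeriv ℝ k (G x) x) := by
  have h00 : ∀ x, f x = G x x := by
    intro x
    have h1 := (hf x 0 (fun i => i.elim0)).self_of_nhds
    simpa using h1
  intro k
  induction k with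
  | zero =>
    intro x h
    rw [iteratedFDeriv_zero_apply]
    exact (h00 x).symm
  | succ k ih =>
    rcases k with _ | k
    · intro x h
      have h1 := H312Gat.wild_limit hG hf 0 x (fun _ => h)
      refine h1.congr fun t => ?_
      rw [iteratedFDeriv_zero_apply, iteratedFDeriv_zero_apply, ← h00, ← h00]
    · intro x
      refine ⟨⟨fun y => iteratedFDeriv ℝ (k + 1) (G y) y, Eventually.of_forall fun y => ih y, fun h => ?_⟩, ?_⟩
      · exact (H312Gat.wild_limit hG hf (k + 1) x h).mono_left (nhdsWithin_mono _ (fun t ht => ne_of_gt ht))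
      · intro σ h
        exact H312Gat.iter_symm (k + 2) (G x) (hG x) x σ h

/-- `ℓ_3` admits no equivalent four times Gateaux differentiable norm and no continuous four times
Gateaux differentiable bump. It does admit a (necessarily discontinuous) bump that is `k` times
Gateaux differentiable for every `k`. -/
theorem result :
    (¬ ∃ N : ell3 → ℝ, IsEquivNorm N ∧ ∀ x, x ≠ 0 → GateauxDiffAt 4 N x) ∧
    (¬ ∃ b : ell3 → ℝ, Continuous b ∧ IsBump b ∧ ∀ x, GateauxDiffAt 4 b x) ∧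
    (∃ b : ell3 → ℝ, IsBump b ∧ ∀ (k : ℕ) (x : ell3), GateauxDiffAt k b x) := by
  have : Fact ((3:ℝ≥0∞) ≠ ⊤) := ⟨by simp⟩
  have hodd : ∀ k : ℕ, (3:ℝ≥0∞).toReal ≠ 2 * k := by
    intro k h
    simp only [ENNReal.toReal_ofNat] at h
    have h1 : (3:ℕ) = 2 * k := by exact_mod_cast h
    omega
  refine ⟨?_, ?_, ?_⟩
  · rintro ⟨N, hN, hG⟩
    obtain ⟨M, hM⟩ := lineDerivs_of (U := {0}ᶜ) isOpen_compl_singleton (fun x hx => hG x hx)
    obtain ⟨c, C, hc, hC, hcC⟩ := hN.equiv
    exact H312Gat.no_norm_derivs hodd (by norm_num) hN.add_le hN.smul hc hcC M hM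
  · rintro ⟨b, hb, ⟨hne, hbd⟩, hG⟩
    obtain ⟨M, hM⟩ := lineDerivs_of (U := univ) isOpen_univ (fun x _ => hG x)
    obtain ⟨R, hR⟩ := hbd.exists_norm_le
    exact H312Gat.no_bump_derivs hodd (by norm_num) hb hne
      (fun x hx => hR x (subset_tsupport b hx)) M hM
  · obtain ⟨f, G, h0, h1, hG, hf⟩ := H312Gat.wild ell3
    refine ⟨f, ⟨⟨0, by rw [h0]; exact one_ne_zero⟩, ?_⟩, fun k x => ⟨_, hasGD_wild hG hf k x⟩⟩
    refine (Metric.isBounded_closedBall (x := (0 : ell3)) (r := 1)).subset ?_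
    refine closure_minimal (fun x hx => ?_) Metric.isClosed_closedBall
    rw [mem_closedBall_zero_iff]
    by_contra hlt
    push Not at hlt
    exact hx (h1 x hlt.le)

end Pool.Agent.Results.MP_b5ab38_an.NormsAndBumps
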